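import Mathlib
import Pool.Agent.Herman.Glue

/-!
# Herman rings of the quadratic Henon map `H₂ (x, y) = (y, x + y²)`

For almost every `θ` the map `H₂` has a Herman ring with rotation number `θ`.  In particular the
set `Θ` of rotation numbers of Herman rings has full (hence positive) measure, and `0` is a
Lebesgue density point of `Θ`.

The proof: with `φ (z) = (2 h U (z - h), -2 h U (-z))` the equation `H₂² (φ z) = φ (z + 2 h)`
reads `U (z + h) - U (z - h) = 2 h U (-z)²`, a discretisation of `U' (z) = U (-z)²`.  The latter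
has a periodic solution in a complex strip (obtained from the elliptic functions uniformising
`x³ + y³ = c`, along a direction in which they have no poles).  A Newton scheme in spaces of
functions holomorphic on shrinking strips continues it to all small `h > 0` for which `2 h` is
Diophantine, with constants allowed to be proportional to `h`.  Finally `H₂` has a Herman ring
with rotation number `k θ` if it has one with rotation number `θ`.
-/

set_option autoImplicit false

namespace Pool.Agent.Results.MP_3dce9d_an.FullMeasure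

open Set Filter Topology MeasureTheory
open scoped Real

/-- The quadratic Henon map `H₂ (x, y) = (y, x + y²)` of `ℂ²`. -/
def henon (p : ℂ × ℂ) : ℂ × ℂ := (p.2, p.1 + p.2 ^ 2)

/-- `H₂` has a Herman ring with rotation number `θ`: there are `h > 0`, a map `φ` holomorphic and
`1`-periodic on the strip `|Im z| < h` (that is, a holomorphic map on the annulus
`{z ∈ ℂ / ℤ : |Im z| < h}`), not constant there, and `n ≥ 2` with `H₂^n (φ z) = φ (z + θ)` on the
strip. -/
def HasHermanRing (θ : ℝ) : Prop :=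
  ∃ h : ℝ, 0 < h ∧ ∃ φ : ℂ → ℂ × ℂ,
    DifferentiableOn ℂ φ {z : ℂ | |z.im| < h} ∧
    (∀ z : ℂ, |z.im| < h → φ (z + 1) = φ z) ∧
    (∃ z w : ℂ, |z.im| < h ∧ |w.im| < h ∧ φ z ≠ φ w) ∧
    ∃ n : ℕ, 2 ≤ n ∧ ∀ z : ℂ, |z.im| < h → henon^[n] (φ z) = φ (z + (θ : ℂ))

/-- The set `Θ ⊆ (ℝ ∖ ℚ) / ℤ` of rotation numbers of Herman rings of `H₂`. -/
def Theta : Set UnitAddCircle :=
  {x | ∃ θ : ℝ, Irrational θ ∧ (θ : UnitAddCircle) = x ∧ HasHermanRing θ}

/-- The arc `(-r, r)` of the circle `ℝ / ℤ`. -/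
def arc (r : ℝ) : Set UnitAddCircle := (fun t : ℝ => (t : UnitAddCircle)) '' Ioo (-r) r

open Pool.Agent.Herman

lemma ring_of_solution {h r c : ℝ} {V : ℂ → ℂ} (hh : 0 < h) (hr : 0 < r) (hc : 0 < c)
    (hd : DifferentiableOn ℂ V (strip r)) (hp : ∀ z ∈ strip r, V (z + 1) = V z)
    (he : ∀ z ∈ strip r, err h V z = 0) (hlow : ∀ z ∈ strip r, c ≤ ‖V z‖) :
    HasHermanRing (2 * h) := by
  have hhC : (h : ℂ) ≠ 0 := Complex.ofReal_ne_zero.mpr hh.ne'
  have key : ∀ z ∈ strip r, V (z + h) = V (z - h) + 2 * h * V (-z) ^ 2 := by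
    intro z hz
    have h1 := he z hz
    unfold err at h1
    field_simp at h1
    linear_combination h1
  have hneg : ∀ z ∈ strip r, -z ∈ strip r := fun z hz => neg_mem_strip hz
  have hadd : ∀ (t : ℝ), ∀ z ∈ strip r, z + t ∈ strip r := fun t z hz => add_real_mem_strip hz t
  have hsub : ∀ (t : ℝ), ∀ z ∈ strip r, z - t ∈ strip r := by
    intro t z hz
    have := add_real_mem_strip hz (-t)
    rwa [Complex.ofReal_neg, ← sub_eq_add_neg] at this
  have hp' : ∀ z ∈ strip r, V (z - 1) = V z := by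
    intro z hz
    have h1 := hsub 1 z hz
    rw [Complex.ofReal_one] at h1
    have h2 := hp _ h1
    rw [sub_add_cancel] at h2
    exact h2.symm
  refine ⟨r, hr, fun z => (2 * h * V (z - h), -(2 * h) * V (-z)), ?_, ?_, ?_, 2, le_rfl, ?_⟩
  · apply DifferentiableOn.prodMk
    · apply DifferentiableOn.const_mul
      exact hd.comp (by fun_prop) (fun z hz => hsub h z hz)
    · apply DifferentiableOn.const_mul
      exact hd.comp (by fun_prop) (fun z hz => hneg z hz)
  · intro z hz
    have e1 : z + 1 - h = (z - h) + 1 := by ring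
    have e2 : -(z + 1) = -z - 1 := by ring
    show (2 * h * V (z + 1 - h), -(2 * h) * V (-(z + 1))) = (2 * h * V (z - h), -(2 * h) * V (-z))
    rw [e1, e2, hp _ (hsub h z hz), hp' _ (hneg z hz)]
  · refine ⟨0, (2 * h : ℝ), by simpa using hr, by simpa using hr, ?_⟩
    intro hcon
    have h1 := congrArg Prod.fst hcon
    simp only [zero_sub] at h1
    have h0 : (0 : ℂ) ∈ strip r := by
      show |(0 : ℂ).im| < r
      simpa using hr
    have h2 := key 0 h0
    rw [zero_add, zero_sub, neg_zero] at h2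
    have e3 : ((2 * h : ℝ) : ℂ) - h = h := by push_cast; ring
    rw [e3, h2] at h1
    have h3 := hlow 0 h0
    have h4 : V 0 ^ 2 = 0 := by
      have h5 : (2 * h : ℂ) * (2 * h) * V 0 ^ 2 = 0 := by linear_combination -h1
      rcases mul_eq_zero.mp h5 with h6 | h6
      · exfalso
        rcases mul_eq_zero.mp h6 with h7 | h7
        · exact mul_ne_zero two_ne_zero hhC h7
        · exact mul_ne_zero two_ne_zero hhC h7
      · exact h6
    have h5 : V 0 = 0 := by simpa using h4
    rw [h5, norm_zero] at h3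
    linarith
  · intro z hz
    have k1 := key z hz
    have k2 := key (-z - h) (hsub h _ (hneg z hz))
    have e1 : -z - (h : ℂ) + h = -z := by ring
    have e2 : -z - (h : ℂ) - h = -z - 2 * h := by ring
    have e3 : -(-z - (h : ℂ)) = z + h := by ring
    rw [e1, e2, e3] at k2
    have e4 : z + ((2 * h : ℝ) : ℂ) - h = z + h := by push_cast; ring
    have e5 : -(z + ((2 * h : ℝ) : ℂ)) = -z - 2 * h := by push_cast; ring
    show henon (henon (2 * h * V (z - h), -(2 * h) * V (-z))) =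
      (2 * h * V (z + ((2 * h : ℝ) : ℂ) - h), -(2 * h) * V (-(z + ((2 * h : ℝ) : ℂ))))
    rw [e4, e5]
    unfold henon
    ext
    · show 2 * h * V (z - h) + (-(2 * h) * V (-z)) ^ 2 = 2 * h * V (z + h)
      linear_combination (-(2 * h : ℂ)) * k1
    · show -(2 * h) * V (-z) + (2 * h * V (z - h) + (-(2 * h) * V (-z)) ^ 2) ^ 2 =
        -(2 * h) * V (-z - 2 * h)
      have : 2 * h * V (z - h) + (-(2 * h) * V (-z)) ^ 2 = 2 * h * V (z + h) := by
        linear_combination (-(2 * h : ℂ)) * k1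
      rw [this]
      linear_combination (-(2 * h : ℂ)) * k2

/-- Herman rings for small Diophantine rotation numbers, with `n = 2`. -/
theorem ring_small {γ : ℝ} (hγ : 0 < γ) (hγ1 : γ ≤ 1) :
    ∃ θ₀ : ℝ, 0 < θ₀ ∧ ∀ θ : ℝ, 0 < θ → θ < θ₀ → DCs γ θ → HasHermanRing θ := by
  obtain ⟨ρ, m, M, U, hρ, hρ1, hm, hU⟩ := exists_unpert
  obtain ⟨h₀, hh₀, H⟩ := hU.exists_solution hρ hρ1 hm hγ hγ1
  refine ⟨2 * h₀, by positivity, fun θ h1 h2 h3 => ?_⟩
  have e : θ = 2 * (θ / 2) := by ring
  obtain ⟨V, hV1, hV2, hV3, hV4⟩ := H (θ / 2) (by linarith) (by linarith) (by rwa [← e])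
  rw [e]
  exact ring_of_solution (by linarith) (by linarith) (by linarith : 0 < m / 2) hV1 hV2 hV3 hV4

lemma HasHermanRing.nat_mul {θ : ℝ} (H : HasHermanRing θ) {k : ℕ} (hk : 1 ≤ k) :
    HasHermanRing (k * θ) := by
  obtain ⟨h, hh, φ, h1, h2, h3, n, hn, h4⟩ := H
  refine ⟨h, hh, φ, h1, h2, h3, n * k, ?_, ?_⟩
  · calc 2 ≤ n := hn
      _ = n * 1 := (mul_one n).symm
      _ ≤ n * k := Nat.mul_le_mul le_rfl hk
  · intro z hz
    rw [Function.iterate_mul]
    clear hk
    induction k with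
    | zero => simp
    | succ k ih =>
      rw [Function.iterate_succ_apply', ih]
      have hz' : |(z + ((k * θ : ℝ) : ℂ)).im| < h := by
        rw [Complex.add_im, Complex.ofReal_im, add_zero]
        exact hz
      rw [h4 _ hz']
      congr 1
      push_cast
      ring

lemma HasHermanRing.neg {θ : ℝ} (H : HasHermanRing θ) : HasHermanRing (-θ) := by
  obtain ⟨h, hh, φ, h1, h2, ⟨z₁, w₁, hz₁, hw₁, hne⟩, n, hn, h4⟩ := H
  have hn' : ∀ z : ℂ, |z.im| < h → |(-z).im| < h := by
    intro z hz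
    rwa [Complex.neg_im, abs_neg]
  refine ⟨h, hh, fun z => φ (-z), ?_, ?_, ⟨-z₁, -w₁, hn' _ hz₁, hn' _ hw₁, ?_⟩, n, hn, ?_⟩
  · exact h1.comp (by fun_prop) (fun z hz => hn' z hz)
  · intro z hz
    have hz' : |(-(z + 1)).im| < h := by
      rw [Complex.neg_im, Complex.add_im, Complex.one_im, add_zero, abs_neg]
      exact hz
    have := h2 _ hz'
    show φ (-(z + 1)) = φ (-z)
    rw [← this]
    congr 1
    ring
  · simpa using hne
  · intro z hz
    show henon^[n] (φ (-z)) = φ (-(z + ((-θ : ℝ) : ℂ)))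
    rw [h4 _ (hn' z hz)]
    congr 1
    push_cast
    ring

lemma two_mul_le_abs_sin (x : ℝ) : 2 * |x - round x| ≤ |Real.sin (π * x)| := by
  have h1 := abs_sub_round x
  have e : Real.sin (π * x) = Real.sin (π * (x - round x) + (round x : ℤ) * π) := by
    congr 1
    ring
  rw [e, Real.sin_add_int_mul_pi, abs_mul]
  have e2 : |((-1 : ℝ) ^ (round x : ℤ))| = 1 := by
    rw [abs_zpow]
    simp
  rw [e2, one_mul]
  have e3 : |Real.sin (π * (x - round x))| = |Real.sin (π * |x - round x|)| := by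
    rcases abs_cases (x - round x) with ⟨h, _⟩ | ⟨h, _⟩
    · rw [h]
    · rw [h, mul_neg, Real.sin_neg, abs_neg]
  rw [e3]
  have hpi := Real.pi_pos
  have h2 := Real.mul_le_sin (x := π * |x - round x|) (by positivity) (by nlinarith)
  refine le_trans (le_of_eq ?_) (h2.trans (le_abs_self _))
  field_simp

/-- Every positive number which is Diophantine with exponent `2` is the rotation number of a
Herman ring. -/
theorem ring_of_diophantine {θ c : ℝ} (hθ : 0 < θ) (hc : 0 < c)
    (H : ∀ k : ℕ, 1 ≤ k → ∀ j : ℤ, c / (k : ℝ) ^ 2 ≤ |(k : ℝ) * θ - j|) : HasHermanRing θ := by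
  set γ : ℝ := min 1 (4 * c / θ) with hγ
  have hγ0 : 0 < γ := lt_min one_pos (by positivity)
  obtain ⟨θ₀, hθ₀, HR⟩ := ring_small hγ0 (min_le_left _ _)
  obtain ⟨n, hn⟩ := exists_nat_gt (θ / θ₀)
  have hn0 : (0 : ℝ) < n := lt_trans (by positivity) hn
  have hn1 : 1 ≤ n := by
    rcases Nat.eq_zero_or_pos n with h | h
    · rw [h] at hn0; simp at hn0
    · exact h
  have hlt : θ / n < θ₀ := by
    rw [div_lt_iff₀ hn0]
    rw [div_lt_iff₀ hθ₀] at hn
    linarith
  have hDC : DCs γ (θ / n) := by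
    intro k hk
    have hkabs : 1 ≤ k.natAbs := Int.natAbs_pos.mpr hk
    have h1 := two_mul_le_abs_sin (k * (θ / n))
    have e1 : π * (k * (θ / n)) = π * k * (θ / n) := by ring
    rw [e1] at h1
    set j : ℤ := round ((k : ℝ) * (θ / n)) with hj
    have h2 : c / (k : ℝ) ^ 2 ≤ n * |(k : ℝ) * (θ / n) - j| := by
      have h3 : |(k : ℝ) * θ - (j * n : ℤ)| = n * |(k : ℝ) * (θ / n) - j| := by
        have e3 : (k : ℝ) * θ - (j * n : ℤ) = n * ((k : ℝ) * (θ / n) - j) := by
          push_cast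
          field_simp
        rw [e3, abs_mul, abs_of_pos hn0]
      rw [← h3]
      rcases Int.natAbs_eq k with hk1 | hk1
      · have h4 := H k.natAbs hkabs (j * n)
        have e4 : ((k.natAbs : ℕ) : ℝ) = (k : ℝ) := by
          rw [← Int.cast_natCast, ← hk1]
        rw [e4] at h4
        exact h4
      · have h4 := H k.natAbs hkabs (-(j * n))
        have e4 : ((k.natAbs : ℕ) : ℝ) = -(k : ℝ) := by
          rw [← Int.cast_natCast, ← Int.cast_neg]
          congr 1
          omega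
        rw [e4] at h4
        have e5 : -(k : ℝ) * θ - ((-(j * n) : ℤ) : ℝ) = -((k : ℝ) * θ - (j * n : ℤ)) := by
          push_cast
          ring
        rw [e5, abs_neg, neg_sq] at h4
        exact h4
    have hk2 : (0 : ℝ) < (k : ℝ) ^ 2 := by
      have : (k : ℝ) ≠ 0 := by exact_mod_cast hk
      positivity
    rw [div_le_iff₀ hk2] at h2
    have h5 : |2 * Real.sin (π * k * (θ / n))| = 2 * |Real.sin (π * k * (θ / n))| := by
      rw [abs_mul]; norm_num
    rw [h5]
    have h6 : γ * (θ / n) ≤ 4 * c / n := by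
      have : γ ≤ 4 * c / θ := min_le_right _ _
      calc γ * (θ / n) ≤ (4 * c / θ) * (θ / n) := by gcongr
        _ = 4 * c / n := by field_simp
    refine h6.trans ?_
    rw [div_le_iff₀ hn0]
    calc 4 * c ≤ 4 * (n * |(k : ℝ) * (θ / n) - j| * (k : ℝ) ^ 2) := by linarith
      _ = 2 * (2 * |(k : ℝ) * (θ / n) - j|) * (k : ℝ) ^ 2 * n := by ring
      _ ≤ 2 * |Real.sin (π * k * (θ / n))| * (k : ℝ) ^ 2 * n := by gcongr
  have h7 := (HR (θ / n) (by positivity) hlt hDC).nat_mul hn1
  have e : (n : ℝ) * (θ / n) = θ := by field_simp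
  rwa [e] at h7

/-- An irrational number that is not a Liouville number of exponent `3` is Diophantine. -/
lemma diophantine_of_not_liouville {θ : ℝ} (hθ : Irrational θ) (hL : ¬ LiouvilleWith 3 θ) :
    ∃ c : ℝ, 0 < c ∧ ∀ k : ℕ, 1 ≤ k → ∀ j : ℤ, c / (k : ℝ) ^ 2 ≤ |(k : ℝ) * θ - j| := by
  have hpos : ∀ k : ℕ, 1 ≤ k → ∃ c : ℝ, 0 < c ∧ ∀ j : ℤ, c ≤ |(k : ℝ) * θ - j| := by
    intro k hk
    refine ⟨|(k : ℝ) * θ - round ((k : ℝ) * θ)|, ?_, fun j => round_le _ j⟩
    rw [abs_pos, sub_ne_zero]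
    have hirr : Irrational ((k : ℝ) * θ) := hθ.natCast_mul (by omega)
    exact hirr.ne_int _
  have hfin : ∀ N : ℕ, ∃ c : ℝ, 0 < c ∧ ∀ k : ℕ, 1 ≤ k → k < N → ∀ j : ℤ,
      c ≤ |(k : ℝ) * θ - j| := by
    intro N
    induction N with
    | zero => exact ⟨1, one_pos, fun k _ h => absurd h (Nat.not_lt_zero k)⟩
    | succ N ih =>
      obtain ⟨c, hc, hcN⟩ := ih
      rcases Nat.eq_zero_or_pos N with hN | hN
      · refine ⟨1, one_pos, fun k h1 h2 => ?_⟩
        omega
      · obtain ⟨c', hc', hc'N⟩ := hpos N hN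
        refine ⟨min c c', lt_min hc hc', fun k h1 h2 j => ?_⟩
        rcases Nat.lt_succ_iff_lt_or_eq.mp h2 with h3 | h3
        · exact (min_le_left _ _).trans (hcN k h1 h3 j)
        · rw [h3]
          exact (min_le_right _ _).trans (hc'N j)
  have hev : ∀ᶠ n : ℕ in atTop, ∀ m : ℤ, ¬ (θ ≠ m / n ∧ |θ - m / n| < 1 / (n : ℝ) ^ (3 : ℝ)) := by
    by_contra hcon
    apply hL
    refine ⟨1, ?_⟩
    intro h
    apply hcon
    filter_upwards [h] with n hn m hm
    exact hn ⟨m, hm⟩
  obtain ⟨N, hN⟩ := eventually_atTop.mp hev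
  obtain ⟨c, hc, hcN⟩ := hfin N
  refine ⟨min 1 c, lt_min one_pos hc, fun k hk j => ?_⟩
  have hk0 : (0 : ℝ) < k := by exact_mod_cast hk
  have hk1 : (1 : ℝ) ≤ k := by exact_mod_cast hk
  rcases lt_or_ge k N with h1 | h1
  · refine le_trans ?_ (hcN k hk h1 j)
    rw [div_le_iff₀ (by positivity)]
    have : (1 : ℝ) ≤ (k : ℝ) ^ 2 := by nlinarith
    calc min 1 c ≤ c := min_le_right _ _
      _ = c * 1 := (mul_one c).symm
      _ ≤ c * (k : ℝ) ^ 2 := by gcongr
  · have h2 := hN k h1 j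
    have h3 : θ ≠ (j : ℝ) / k := by
      intro h4
      apply hθ
      exact ⟨(j : ℚ) / (k : ℚ), by push_cast; exact h4.symm⟩
    have h4 : 1 / (k : ℝ) ^ (3 : ℝ) ≤ |θ - j / k| := by
      by_contra h5
      exact h2 ⟨h3, not_le.mp h5⟩
    have e1 : (k : ℝ) ^ (3 : ℝ) = (k : ℝ) ^ (3 : ℕ) := by
      rw [← Real.rpow_natCast]
      norm_num
    rw [e1] at h4
    have e2 : (k : ℝ) * θ - j = k * (θ - j / k) := by field_simp
    rw [e2, abs_mul, abs_of_pos hk0]
    calc min 1 c / (k : ℝ) ^ 2 ≤ 1 / (k : ℝ) ^ 2 := by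
          gcongr
          exact min_le_left _ _
      _ = k * (1 / (k : ℝ) ^ 3) := by field_simp
      _ ≤ k * |θ - j / k| := by gcongr

/-- Almost every point of the circle belongs to `Θ`. -/
theorem volume_compl_Theta : volume Thetaᶜ = 0 := by
  have h1 : ∀ᵐ θ : ℝ, Irrational θ ∧ ¬ LiouvilleWith 3 θ := by
    have hirr : ∀ᵐ θ : ℝ, Irrational θ := by
      have : volume (range ((↑) : ℚ → ℝ)) = 0 := (countable_range _).measure_zero _
      rw [ae_iff]
      convert this using 2
      ext x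
      simp [Irrational]
    filter_upwards [hirr, ae_not_liouvilleWith] with θ a b
    exact ⟨a, b 3 (by norm_num)⟩
  set B : Set ℝ := {θ : ℝ | ¬ (Irrational θ ∧ ¬ LiouvilleWith 3 θ)} with hB
  have hB0 : volume B = 0 := h1
  set B' := toMeasurable volume B with hB'
  have hB'0 : volume B' = 0 := by rw [hB', measure_toMeasurable, hB0]
  have hB'm : MeasurableSet B' := measurableSet_toMeasurable _ _
  set E := AddCircle.measurableEquivIoc (1 : ℝ) 0 with hE
  set S : Set UnitAddCircle := {x | ((E x : ℝ)) ∈ B'} with hS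
  have hSm : MeasurableSet S := (measurable_subtype_coe.comp E.measurable) hB'm
  have hS0 : volume S = 0 := by
    have hmp := UnitAddCircle.measurePreserving_mk 0
    rw [← hmp.measure_preimage hSm.nullMeasurableSet]
    have hsub : (fun t : ℝ => (t : UnitAddCircle)) ⁻¹' S ∩ Ioc (0 : ℝ) (0 + 1) ⊆ B' := by
      rintro t ⟨ht1, ht2⟩
      have ht3 : ((E (t : UnitAddCircle) : ℝ)) ∈ B' := ht1
      have e : (E (t : UnitAddCircle) : ℝ) = t := by
        exact AddCircle.equivIoc_coe_of_mem (p := 1) (a := 0) ht2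
      rwa [e] at ht3
    rw [Measure.restrict_apply' measurableSet_Ioc]
    exact measure_mono_null hsub hB'0
  apply measure_mono_null _ hS0
  intro x hx
  by_contra hxS
  apply hx
  set t : ℝ := (E x : ℝ) with ht
  have htB : t ∉ B := fun h => hxS (subset_toMeasurable _ _ h)
  have htB' : Irrational t ∧ ¬ LiouvilleWith 3 t := by
    by_contra h
    exact htB h
  have htpos : 0 < t := (E x).2.1
  obtain ⟨c, hc, H⟩ := diophantine_of_not_liouville htB'.1 htB'.2
  refine ⟨t, htB'.1, ?_, ring_of_diophantine htpos hc H⟩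
  exact E.symm_apply_apply x

lemma volume_arc {r : ℝ} (h1 : r ≤ 1 / 2) : volume (arc r) = ENNReal.ofReal (2 * r) := by
  have hopen : IsOpen (arc r) := QuotientAddGroup.isOpenMap_coe _ isOpen_Ioo
  rw [AddCircle.add_projection_respects_measure (1 : ℝ) (-(1 / 2)) hopen.measurableSet]
  have e : (QuotientAddGroup.mk ⁻¹' (arc r) ∩ Ioc (-(1 / 2)) (-(1 / 2) + 1) : Set ℝ) =
      Ioo (-r) r := by
    ext t
    constructor
    · rintro ⟨⟨s, hs, hst⟩, ht⟩
      have hs' : s ∈ Ioc (-(1 / 2) : ℝ) (-(1 / 2) + 1) :=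
        ⟨by linarith [hs.1], by linarith [hs.2]⟩
      have : s = t := (AddCircle.coe_eq_coe_iff_of_mem_Ioc hs' ht).mp hst
      rwa [← this]
    · intro ht
      exact ⟨⟨t, ht, rfl⟩, ⟨by linarith [ht.1], by linarith [ht.2]⟩⟩
  rw [e, Real.volume_Ioo]
  congr 1
  ring

/-- **Almost every `θ` is the rotation number of a Herman ring of `H₂`**: the set `Θ` has full
measure, and `0` is a Lebesgue density point of `Θ`. -/
theorem result : volume Thetaᶜ = 0 ∧
    Tendsto (fun r : ℝ => (volume (Theta ∩ arc r)).toReal / (2 * r)) (𝓝[>] 0) (𝓝 1) := by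
  refine ⟨volume_compl_Theta, ?_⟩
  have hev : ∀ᶠ r : ℝ in 𝓝[>] 0, (1 : ℝ) = (volume (Theta ∩ arc r)).toReal / (2 * r) := by
    have h1 : Ioc (0 : ℝ) (1 / 2) ∈ 𝓝[>] (0 : ℝ) := Ioc_mem_nhdsGT (by norm_num)
    filter_upwards [h1] with r hr
    have e : volume (Theta ∩ arc r) = volume (arc r) := by
      rw [inter_comm]
      exact measure_inter_conull volume_compl_Theta
    rw [e, volume_arc hr.2, ENNReal.toReal_ofReal (by linarith [hr.1])]
    have : r ≠ 0 := hr.1.ne'
    field_simp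
  exact tendsto_const_nhds.congr' hev

end Pool.Agent.Results.MP_3dce9d_an.FullMeasure
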